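import Pool.Agent.Q60.D3Q.Stm
import Pool.Agent.W547.KB.Main

/-! Project D3Q (helper60), JOB Q2: the classes generated by divisors and the Weil classes of degree
four on the products `Y × B` are generated by Hodge classes of codimension at most two. -/

set_option autoImplicit false

namespace Pool.Agent.Q299.D3Q

open NumberField Pool.Agent.H204R3.CM Pool.Agent.Q60.D3Q
open Pool.Agent.W547.KB (CMPair CMAV)

theorem iso_avOf (h : S_polx) (X : CMAV) : Pool.Agent.Q60.D3E.IsoCM (avOf h X) X :=
  ⟨LinearEquiv.refl ℚ X.H1, LinearEquiv.refl ℂ X.Tan, fun _ => rfl⟩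

/-- The isomorphism of the product of the homologies with the homology of the product. -/
def pairL (X Y : CMAV) : X.H1 × Y.H1 →ₗ[ℚ] (X.prod Y).H1 where
  toFun w := X.pair Y w.1 w.2
  map_add' v w := by
    funext s
    cases s <;> rfl
  map_smul' a v := by
    funext s
    cases s <;> rfl

/-- The isomorphism of the product of the tangent spaces with the tangent space of the product. -/
def pairTL (X Y : CMAV) : X.Tan × Y.Tan →ₗ[ℂ] (X.prod Y).Tan where
  toFun w := Pool.Agent.W547.KB.pairT X Y w.1 w.2
  map_add' v w := by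
    funext s
    cases s <;> rfl
  map_smul' a v := by
    funext s
    cases s <;> rfl

theorem isHom_pair (h : S_polx) (X Y : CMAV) :
    Pool.Agent.Q60.D3.IsHom ((avOf h X).prod (avOf h Y)) (avOf h (X.prod Y)) (pairL X Y) :=
  ⟨pairTL X Y, fun w => (Pool.Agent.W547.KB.per_pair w.1 w.2).symm⟩

theorem kbt (hi : Pool.Agent.Q60.D3E.S_iscm) : S_kbt := by
  intro h B X κ f hf
  induction hf with
  | unit f => exact fun _ => Gen.unit (X := avOf h _) f
  | divisor hκ f hf => exact fun _ => Gen.divisor (X := avOf h _) hκ f hf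
  | weil L ι Φ hΦ ρ h01 h2 α f hf =>
    intro _
    exact Gen.cm (Y := avOf h _) (hi _ _ (iso_avOf h _)) f
      (Pool.Agent.W547.KB.hodge_weil ι Φ hΦ ρ h01 h2 α f hf)
  | zero X κ => exact fun _ => Gen.zero _ _
  | add f g _ _ ihf ihg => exact fun h' => Gen.add (X := avOf h _) f g (ihf h') (ihg h')
  | smul a f _ ih => exact fun h' => Gen.smul (X := avOf h _) a f (ih h')
  | reindex e f _ ih =>
    exact fun h' => Gen.reindex (X := avOf h _) e f (ih (Finite.of_equiv _ e.symm))
  | cup f g _ _ k hk ihf ihg =>
    exact fun _ => Gen.cup (X := avOf h _) f g (ihf inferInstance) (ihg inferInstance) k hk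
  | pull k hk f _ ih =>
    exact fun hfin => Gen.pull (X := avOf h _) (Y := avOf h _) k hk f (ih hfin)
  | @push X Y κ κ' b f _ g hg ih =>
    intro h'
    have := Module.Finite.finite_basis b
    have h1 : Gen ((avOf h X).prod (avOf h Y)) (κ ⊕ κ') (f.compLinearMap (pairL X Y)) :=
      Gen.pull (X := (avOf h X).prod (avOf h Y)) (Y := avOf h (X.prod Y)) (pairL X Y)
        (isHom_pair h X Y) f (ih inferInstance)
    refine Gen.push (X := avOf h X) (Y := avOf h Y) b _ h1 g fun v => ?_
    refine (hg v).trans ?_
    change f _ = f _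
    congr 1
    funext s
    cases s <;> rfl

end Pool.Agent.Q299.D3Q
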