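import Pool.Agent.Q60.D3Q.Stm
import Pool.Agent.W547.LD.Approx

/-! Project D3Q (helper60), JOB Q1: polarizations of abelian varieties of CM type. -/

set_option autoImplicit false

namespace Pool.Agent.Q299.D3Q

open NumberField Pool.Agent.H204R3.CM Pool.Agent.Q60.D3Q Pool.Agent.W547.KB

/-- A sum over all embeddings as a sum over a CM type. -/
theorem sum_type {E : Type} [Field E] [NumberField E] {Φ : Set (E →+* ℂ)} (hΦ : IsCMType Φ)
    [Fintype Φ] (g : (E →+* ℂ) → ℂ) :
    ∑ φ : E →+* ℂ, g φ = ∑ φ : Φ, (g φ.1 + g (ComplexEmbedding.conjugate φ.1)) := by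
  classical
  have hinv : ∀ φ : E →+* ℂ, ComplexEmbedding.conjugate (ComplexEmbedding.conjugate φ) = φ :=
    ComplexEmbedding.involutive_conjugate E
  rw [Finset.sum_add_distrib]
  have h1 : ∑ φ : Φ, g φ.1 = ∑ φ with φ ∈ Φ, g φ := by
    refine (Finset.sum_subtype _ (fun x => ?_) _).symm
    simp
  have h2 : ∑ φ : Φ, g (ComplexEmbedding.conjugate φ.1) = ∑ φ with ¬ φ ∈ Φ, g φ := by
    refine Finset.sum_bij (fun (φ : Φ) _ => ComplexEmbedding.conjugate φ.1) ?_ ?_ ?_ ?_
    · intro φ _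
      rw [Finset.mem_filter]
      exact ⟨Finset.mem_univ _, (hΦ φ.1).1 φ.2⟩
    · intro φ _ ψ _ h
      apply Subtype.ext
      rw [← hinv φ.1, ← hinv ψ.1]
      exact congrArg _ h
    · intro φ hφ
      rw [Finset.mem_filter] at hφ
      have h3 : ComplexEmbedding.conjugate φ ∈ Φ := by
        rw [hΦ, hinv]
        exact hφ.2
      exact ⟨⟨_, h3⟩, Finset.mem_univ _, hinv φ⟩
    · intro φ _
      rfl
  rw [h1, h2, Finset.sum_filter_add_sum_filter_not]

/-- The trace as a sum over a CM type. -/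
theorem trace_type {E : Type} [Field E] [NumberField E] {Φ : Set (E →+* ℂ)} (hΦ : IsCMType Φ)
    [Fintype Φ] (z : E) :
    ((Algebra.trace ℚ E z : ℚ) : ℂ) = ∑ φ : Φ, (((2 * (φ.1 z).re : ℝ)) : ℂ) := by
  have h1 : ((Algebra.trace ℚ E z : ℚ) : ℂ) = ∑ σ : E →ₐ[ℚ] ℂ, σ z := by
    rw [← trace_eq_sum_embeddings (K := ℚ) (L := E) ℂ]
    rfl
  have h2 : ∑ σ : E →ₐ[ℚ] ℂ, σ z = ∑ φ : E →+* ℂ, φ z := by
    refine (Fintype.sum_equiv (RingHom.equivRatAlgHom E ℂ) (fun φ => φ z) (fun σ => σ z)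
      fun _ => ?_).symm
    simp [RingHom.equivRatAlgHom_apply]
  rw [h1, h2, sum_type hΦ]
  refine Finset.sum_congr rfl fun φ _ => ?_
  rw [ComplexEmbedding.conjugate_coe_eq, Complex.add_conj]

theorem polx : S_polx := by
  classical
  intro X
  have hfin : ∀ i, Fintype (X.factor i).Φ := fun i => Fintype.ofFinite _
  obtain ⟨w, hw⟩ := Pool.Agent.W547.LD.exists_approx X (fun i φ => -Complex.I)
    (ε := 1 / 2) (by norm_num)
  have hw' : ∀ i (φ : (X.factor i).Φ), (φ.1 (w i)).im < 0 := by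
    intro i φ
    have h2 : |(X.per w i φ - -Complex.I).im| < 1 / 2 :=
      (Complex.abs_im_le_norm _).trans_lt (hw i φ)
    have h3 : (X.per w i φ - -Complex.I).im = (φ.1 (w i)).im + 1 := by
      change (φ.1 (w i) - -Complex.I).im = _
      simp
    rw [h3, abs_lt] at h2
    linarith [h2.2]
  refine ⟨fun u u' => ∑ i, ∑ φ : (X.factor i).Φ,
    (((-4 * (φ.1 (w i)).im : ℝ)) : ℂ) * (u i φ * starRingEnd ℂ (u' i φ)),
    fun u' => ⟨fun u u'' => ?_, fun a u => ?_⟩, fun u u' => ?_, fun u hu => ?_, fun v y => ?_⟩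
  · dsimp only
    rw [← Finset.sum_add_distrib]
    refine Finset.sum_congr rfl fun i _ => ?_
    rw [← Finset.sum_add_distrib]
    refine Finset.sum_congr rfl fun φ _ => ?_
    have h1 : (u + u'') i φ = u i φ + u'' i φ := rfl
    rw [h1]
    ring
  · dsimp only
    rw [smul_eq_mul, Finset.mul_sum]
    refine Finset.sum_congr rfl fun i _ => ?_
    rw [Finset.mul_sum]
    refine Finset.sum_congr rfl fun φ _ => ?_
    have h1 : (a • u) i φ = a * u i φ := rfl
    rw [h1]
    ring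
  · dsimp only
    rw [map_sum]
    refine Finset.sum_congr rfl fun i _ => ?_
    rw [map_sum]
    refine Finset.sum_congr rfl fun φ _ => ?_
    rw [map_mul, map_mul, Complex.conj_ofReal, Complex.conj_conj]
    ring
  · dsimp only
    have h1 : ∀ i (φ : (X.factor i).Φ),
        ((((-4 * (φ.1 (w i)).im : ℝ)) : ℂ) * (u i φ * starRingEnd ℂ (u i φ))).re =
          (-4 * (φ.1 (w i)).im) * Complex.normSq (u i φ) := by
      intro i φ
      rw [Complex.mul_conj, ← Complex.ofReal_mul, Complex.ofReal_re]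
    have h2 : (∑ i, ∑ φ : (X.factor i).Φ,
        (((-4 * (φ.1 (w i)).im : ℝ)) : ℂ) * (u i φ * starRingEnd ℂ (u i φ))).re =
        ∑ i, ∑ φ : (X.factor i).Φ, (-4 * (φ.1 (w i)).im) * Complex.normSq (u i φ) := by
      rw [Complex.re_sum]
      refine Finset.sum_congr rfl fun i _ => ?_
      rw [Complex.re_sum]
      exact Finset.sum_congr rfl fun φ _ => h1 i φ
    rw [h2]
    have h0 : ∀ i (φ : (X.factor i).Φ), 0 ≤ (-4 * (φ.1 (w i)).im) * Complex.normSq (u i φ) :=
      fun i φ => mul_nonneg (by linarith [hw' i φ]) (Complex.normSq_nonneg _)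
    obtain ⟨i, φ, hi⟩ : ∃ i, ∃ φ : (X.factor i).Φ, u i φ ≠ 0 := by
      by_contra hcon
      push Not at hcon
      exact hu (funext fun i => funext fun φ => hcon i φ)
    refine Finset.sum_pos' (fun i _ => Finset.sum_nonneg fun φ _ => h0 i φ)
      ⟨i, Finset.mem_univ _, Finset.sum_pos' (fun φ _ => h0 i φ) ⟨φ, Finset.mem_univ _, ?_⟩⟩
    exact mul_pos (by linarith [hw' i φ]) (Complex.normSq_pos.2 hi)
  · refine ⟨∑ i, Algebra.trace ℚ (X.factor i).E
      ((w i - IsCMField.complexConj (X.factor i).E (w i)) * v i *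
        IsCMField.complexConj (X.factor i).E (y i)), ?_⟩
    apply Complex.ofReal_injective
    rw [Complex.im_sum]
    push_cast
    refine Finset.sum_congr rfl fun i _ => ?_
    rw [trace_type (X.factor i).isCMType, Complex.im_sum]
    push_cast
    refine Finset.sum_congr rfl fun φ _ => ?_
    have h1 : X.per v i φ = φ.1 (v i) := rfl
    have h2 : X.per y i φ = φ.1 (y i) := rfl
    rw [h1, h2, map_mul, map_mul, map_sub, IsCMField.complexEmbedding_complexConj,
      IsCMField.complexEmbedding_complexConj]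
    have h3 : φ.1 (w i) - starRingEnd ℂ (φ.1 (w i)) = ((2 * (φ.1 (w i)).im : ℝ) : ℂ) * Complex.I := by
      rw [Complex.sub_conj]
    rw [h3]
    norm_cast
    simp
    ring

end Pool.Agent.Q299.D3Q
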